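import Pool.Agent.Helper24.AN.Def

/-!
# The deep theorem (block DEEP)
-/

namespace Pool.Agent.Helper85.AN

open Pool.Agent.Helper24.AN

variable {R : Type*} [CommRing R] {I : Ideal R}

theorem deep {H : Type*} [AddCommGroup H] [Module R H] (htor : Tor I H) {p : ℕ} (hp : 2 ≤ p)
    (d' c c' : ℕ) (N0 : Submodule R H) (G : H →+ H)
    (hGE : ∀ b, ∀ h ∈ E I H b, G h ∈ E I H (p * b + d'))
    (hdar : ∀ (j : ℕ) (η : H), (∀ r ∈ I ^ j, r • η ∈ N0 ⊔ E I H c) → η ∈ N0 ⊔ E I H (c + j))
    (hstar : ∀ b n : ℕ, n + c' ≤ p * b → ∀ ζ ∈ N0 ⊓ E I H n,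
      ζ ∈ Submodule.span R (G '' ((N0 ⊓ E I H b : Submodule R H) : Set H))) :
    ∃ k N1 : ℕ, ∀ G' : H →+ H, (∀ b, ∀ h ∈ E I H b, G' h - G h ∈ E I H (p * b + d' - N1)) →
      ∀ N N' : Submodule R H, N ≤ N' → (∀ h ∈ N, G' h ∈ N) →
        (∀ h ∈ E I H k, (h ∈ N ↔ h ∈ N0) ∧ (h ∈ N' ↔ h ∈ N0)) → N' ≤ N := by
  obtain ⟨g, hg⟩ : ∃ g, g = c' + p + d' := ⟨_, rfl⟩
  refine ⟨g + c, c' + p + d' + g, ?_⟩
  intro G' hG' N N' hNN hN hk
  -- (I2)
  have I2 : ∀ n, g + c ≤ n → ∀ η ∈ N', η ∈ E I H n → η ∈ N0 ⊔ E I H (n - g) := by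
    intro n hn η hη hηn
    have h1 := hdar (n - (g + c)) η (by
      intro r hr
      have h2 := smul_mem_E I hr hηn
      have h3 : n - (n - (g + c)) = g + c := by omega
      rw [h3] at h2
      exact Submodule.mem_sup_left (((hk _ h2).2).1 (N'.smul_mem r hη)))
    have h4 : c + (n - (g + c)) = n - g := by omega
    rwa [h4] at h1
  -- (I3)
  have I3 : ∀ n, ∀ ζ ∈ N0, ζ ∈ E I H n → ζ ∈ N ⊔ E I H (n - g) := by
    intro n
    induction n using Nat.strong_induction_on with
    | _ n ih =>
      intro ζ hζ hζn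
      rcases Nat.lt_or_ge (g + c) n with hn | hn
      swap
      · exact Submodule.mem_sup_left (((hk _ (E_mono I hn hζn)).1).2 hζ)
      · obtain ⟨b, hb⟩ : ∃ b, b = (n + c' + (p - 1)) / p := ⟨_, rfl⟩
        have hb1 : n + c' ≤ p * b := by
          have h1 := Nat.div_add_mod (n + c' + (p - 1)) p
          have h2 := Nat.mod_lt (n + c' + (p - 1)) (show 0 < p by omega)
          rw [← hb] at h1
          omega
        have hb2 : p * b ≤ n + c' + (p - 1) := by
          have h1 := Nat.div_add_mod (n + c' + (p - 1)) p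
          rw [← hb] at h1
          omega
        have hb3 : b < n := by
          by_contra hcon
          have h1 : 2 * n ≤ p * b := Nat.mul_le_mul hp (by omega)
          omega
        have hpg : p * (b - g) + g ≤ p * b ∨ b ≤ g := by
          rcases Nat.lt_or_ge g b with h | h
          · left
            have h1 : p * b = p * (b - g) + p * g := by
              rw [← Nat.mul_add, Nat.sub_add_cancel h.le]
            have h2 : 1 * g ≤ p * g := Nat.mul_le_mul (by omega) le_rfl
            omega
          · exact Or.inr h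
        have hpg2 : b ≤ g ∨ p * (b - g) + d' ≤ n - g := by
          rcases Nat.lt_or_ge g b with h | h
          · right
            have h1 : p * b = p * (b - g) + p * g := by
              rw [← Nat.mul_add, Nat.sub_add_cancel h.le]
            have h2 : 2 * g ≤ p * g := Nat.mul_le_mul hp le_rfl
            omega
          · exact Or.inl h
        have hζs := hstar b n hb1 ζ ⟨hζ, hζn⟩
        refine (Submodule.span_le.2 ?_ : Submodule.span R
          (G '' ((N0 ⊓ E I H b : Submodule R H) : Set H)) ≤ N ⊔ E I H (n - g)) hζs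
        rintro _ ⟨ν, ⟨hν0, hνb⟩, rfl⟩
        obtain ⟨ν', hν', ε, hε, hsum⟩ := Submodule.mem_sup.1 (ih b hb3 ν hν0 hνb)
        have hν'b : ν' ∈ E I H b := by
          have : ν' = ν - ε := by rw [← hsum]; abel
          rw [this]
          exact Submodule.sub_mem _ hνb (E_mono I (Nat.sub_le _ _) hε)
        have e1 : G ν = G' ν' - (G' ν' - G ν') + G ε := by
          rw [← hsum, map_add]; abel
        rw [SetLike.mem_coe, e1]
        refine Submodule.add_mem _ (Submodule.sub_mem _ (Submodule.mem_sup_left (hN _ hν'))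
          (Submodule.mem_sup_right (E_mono I ?_ (hG' b ν' hν'b)))) ?_
        · omega
        · rcases hpg2 with h | h
          · have h0 : b - g = 0 := by omega
            rw [h0, E_zero] at hε
            rw [(Submodule.mem_bot R).1 hε, map_zero]
            exact Submodule.zero_mem _
          · exact Submodule.mem_sup_right (E_mono I h (hGE _ _ hε))
  -- (I4)
  have I4 : ∀ n, ∀ η ∈ N', η ∈ E I H n → η ∈ N := by
    intro n
    induction n using Nat.strong_induction_on with
    | _ n ih =>
      intro η hη hηn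
      rcases Nat.lt_or_ge (g + c) n with hn | hn
      swap
      · have h1 := E_mono I hn hηn
        exact ((hk _ h1).1).2 (((hk _ h1).2).1 hη)
      · obtain ⟨ζ, hζ, ε, hε, hsum⟩ := Submodule.mem_sup.1 (I2 n hn.le η hη hηn)
        have hζn : ζ ∈ E I H n := by
          have : ζ = η - ε := by rw [← hsum]; abel
          rw [this]
          exact Submodule.sub_mem _ hηn (E_mono I (Nat.sub_le _ _) hε)
        have h2 : η ∈ N ⊔ E I H (n - g) := by
          rw [← hsum]
          exact Submodule.add_mem _ (I3 n ζ hζ hζn) (Submodule.mem_sup_right hε)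
        obtain ⟨ν, hν, ε', hε', hsum'⟩ := Submodule.mem_sup.1 h2
        have h3 : ε' ∈ N' := by
          have : ε' = η - ν := by rw [← hsum']; abel
          rw [this]
          exact Submodule.sub_mem _ hη (hNN hν)
        rw [← hsum']
        exact N.add_mem hν (ih (n - g) (by omega) ε' h3 hε')
  intro η hη
  obtain ⟨n, hn⟩ := htor η
  exact I4 n η hη hn

end Pool.Agent.Helper85.AN
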